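import Pool.Agent.H24.L5.Stmts
import Pool.Agent.H32.Dense.Conf

/-!
L5: row COA, energies given a coarser variable
-/

set_option autoImplicit false

namespace Pool.L5

open Finset Real MeasureTheory
open Pool.Agent.H49.Ent Pool.Agent.H32.Dense

namespace COA36

/-! ### The two bounds for `ell` -/

theorem div_close {x y : ℤ} {i : ℕ} (h : |x - y| ≤ 2 ^ i) : |x / 2 ^ i - y / 2 ^ i| ≤ 1 := by
  have hk : (0 : ℤ) < 2 ^ i := by positivity
  have key : ∀ a b : ℤ, a ≤ b + 2 ^ i → a / 2 ^ i ≤ b / 2 ^ i + 1 := by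
    intro a b hab
    have h1 := Int.ediv_le_ediv hk hab
    rwa [Int.add_ediv_of_dvd_right dvd_rfl, Int.ediv_self hk.ne'] at h1
  rw [abs_le] at h ⊢
  constructor
  · have := key y x (by linarith)
    linarith
  · have := key x y (by linarith)
    linarith

theorem lt_of_div {x y : ℤ} {i : ℕ} (h : x / 2 ^ i = y / 2 ^ i) : |x - y| < 2 ^ i := by
  have hk : (0 : ℤ) < 2 ^ i := by positivity
  have h1 := Int.emod_add_mul_ediv x (2 ^ i)
  have h2 := Int.emod_add_mul_ediv y (2 ^ i)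
  have h3 := Int.emod_nonneg x hk.ne'
  have h4 := Int.emod_nonneg y hk.ne'
  have h5 := Int.emod_lt_of_pos x hk
  have h6 := Int.emod_lt_of_pos y hk
  rw [h] at h1
  rw [abs_lt]
  constructor <;> linarith

theorem ell_bounds {J : ℕ} {x y : ℤ} (hx : 0 ≤ x ∧ x < 2 ^ J) (hy : 0 ≤ y ∧ y < 2 ^ J) :
    ell (2 ^ J) x y ≤
      Real.log 2 * (∑ i ∈ range J, if |x / 2 ^ i - y / 2 ^ i| ≤ 1 then (1 : ℝ) else 0) +
        Real.log 2 ∧
    Real.log 2 * (∑ i ∈ range J, if x / 2 ^ i = y / 2 ^ i then (1 : ℝ) else 0) ≤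
      ell (2 ^ J) x y := by
  have hl2 : 0 < Real.log 2 := Real.log_pos (by norm_num)
  set D : ℕ := max (x - y).natAbs 1 with hD
  have hD1 : 1 ≤ D := le_max_right _ _
  have habs : ((x - y).natAbs : ℤ) = |x - y| := Int.natCast_natAbs _
  have hlt : |x - y| < 2 ^ J := by rw [abs_lt]; constructor <;> linarith
  have hJD : D ≤ 2 ^ J := by
    refine max_le ?_ Nat.one_le_two_pow
    have : ((x - y).natAbs : ℤ) < ((2 ^ J : ℕ) : ℤ) := by rw [habs]; push_cast; exact hlt
    exact (by exact_mod_cast this : (x - y).natAbs < 2 ^ J).le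
  have hDr : max |(x : ℝ) - y| 1 = (D : ℝ) := by
    rw [hD, Nat.cast_max, Nat.cast_one]
    have : ((x - y).natAbs : ℝ) = |(x : ℝ) - y| := by
      rw [Nat.cast_natAbs]
      push_cast
      rfl
    rw [this]
  set n := Nat.clog 2 D with hn
  have hnJ : n ≤ J := by
    rw [hn]
    exact (Nat.clog_le_iff_le_pow (by norm_num)).2 hJD
  have hDn : D ≤ 2 ^ n := Nat.le_pow_clog (by norm_num) D
  have hell : ell (2 ^ J) x y = J * Real.log 2 - Real.log D := by
    rw [ell, hDr, Real.log_div (by positivity) (by positivity)]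
    push_cast
    rw [Real.log_pow]
  have hlog1 : Real.log D ≤ n * Real.log 2 := by
    rw [← Real.log_pow]
    refine Real.log_le_log (by positivity) ?_
    exact_mod_cast hDn
  have hlog2 : ((n : ℝ) - 1) * Real.log 2 ≤ Real.log D := by
    rcases Nat.eq_zero_or_pos n with h0 | h0
    · rw [h0]
      have : 0 ≤ Real.log D := Real.log_nonneg (by exact_mod_cast hD1)
      push_cast
      linarith
    · have h1 : 2 ^ (n - 1) < D := by
        by_contra hcon
        have := (Nat.clog_le_iff_le_pow (b := 2) (by norm_num)).2 (Nat.le_of_not_lt hcon)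
        omega
      have h2 : ((n : ℝ) - 1) = ((n - 1 : ℕ) : ℝ) := by
        rw [Nat.cast_sub h0, Nat.cast_one]
      rw [h2, ← Real.log_pow]
      refine Real.log_le_log (by positivity) ?_
      exact_mod_cast h1.le
  constructor
  · have h1 : ((J : ℝ) - n) ≤
        ∑ i ∈ range J, if |x / 2 ^ i - y / 2 ^ i| ≤ 1 then (1 : ℝ) else 0 := by
      have h2 : ∑ i ∈ Ico n J, (1 : ℝ) ≤
          ∑ i ∈ range J, if |x / 2 ^ i - y / 2 ^ i| ≤ 1 then (1 : ℝ) else 0 := by
        calc ∑ i ∈ Ico n J, (1 : ℝ) = ∑ i ∈ Ico n J,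
              if |x / 2 ^ i - y / 2 ^ i| ≤ 1 then (1 : ℝ) else 0 := by
              refine Finset.sum_congr rfl fun i hi => ?_
              rw [if_pos]
              refine div_close ?_
              have h3 := (mem_Ico.1 hi).1
              have h4 : D ≤ 2 ^ i := hDn.trans (Nat.pow_le_pow_right (by norm_num) h3)
              have h5 : (x - y).natAbs ≤ 2 ^ i := (le_max_left _ _).trans h4
              rw [← habs]
              exact_mod_cast h5
          _ ≤ _ := by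
              refine Finset.sum_le_sum_of_subset_of_nonneg ?_ fun i _ _ => by split_ifs <;> norm_num
              intro i hi
              exact mem_range.2 (mem_Ico.1 hi).2
      rw [Finset.sum_const, Nat.card_Ico, nsmul_eq_mul, mul_one, Nat.cast_sub hnJ] at h2
      exact h2
    rw [hell]
    nlinarith
  · have h1 : (∑ i ∈ range J, if x / 2 ^ i = y / 2 ^ i then (1 : ℝ) else 0) ≤ (J : ℝ) - n := by
      have h2 : (∑ i ∈ range J, if x / 2 ^ i = y / 2 ^ i then (1 : ℝ) else 0) ≤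
          ∑ i ∈ Ico n J, (1 : ℝ) := by
        rw [← Finset.sum_filter]
        refine Finset.sum_le_sum_of_subset_of_nonneg ?_ fun i _ _ => by norm_num
        intro i hi
        obtain ⟨h3, h4⟩ := mem_filter.1 hi
        refine mem_Ico.2 ⟨?_, mem_range.1 h3⟩
        rw [hn]
        refine (Nat.clog_le_iff_le_pow (by norm_num)).2 (max_le ?_ Nat.one_le_two_pow)
        have h5 := lt_of_div h4
        rw [← habs] at h5
        exact (by exact_mod_cast h5 : (x - y).natAbs < 2 ^ i).le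
      rw [Finset.sum_const, Nat.card_Ico, nsmul_eq_mul, mul_one, Nat.cast_sub hnJ] at h2
      exact h2
    rw [hell]
    nlinarith

/-! ### Conditional expectations -/

variable {Ω : Type} [Fintype Ω] {β γ : Type}

open Classical in
/-- conditional expectation -/
noncomputable def ce (p : Ω → ℝ) (V : Ω → β) (f : Ω → ℝ) (ω : Ω) : ℝ :=
  (∑ ω', if V ω = V ω' then p ω' * f ω' else 0) / law p V (V ω)

theorem ce_mul {p : Ω → ℝ} (hp : ∀ ω, 0 ≤ p ω) (V : Ω → β) (f g : Ω → ℝ)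
    (hg : ∀ ω ω', 0 < p ω → 0 < p ω' → V ω = V ω' → g ω = g ω') :
    ∑ ω, p ω * (ce p V f ω * g ω) = ∑ ω, p ω * (f ω * g ω) := by
  classical
  have h1 : ∀ ω, p ω * (ce p V f ω * g ω) =
      ∑ ω', if V ω = V ω' then p ω * g ω * (p ω' * f ω') / law p V (V ω) else 0 := by
    intro ω
    rw [ce, Finset.sum_div, Finset.sum_mul, Finset.mul_sum]
    refine Finset.sum_congr rfl fun ω' _ => ?_
    split_ifs <;> ring
  rw [Finset.sum_congr rfl fun ω _ => h1 ω, Finset.sum_comm]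
  refine Finset.sum_congr rfl fun ω' _ => ?_
  rcases (hp ω').eq_or_lt with h0 | h0
  · rw [← h0]
    simp
  have h2 : ∀ ω, (if V ω = V ω' then p ω * g ω * (p ω' * f ω') / law p V (V ω) else 0) =
      (if V ω = V ω' then p ω else 0) * (g ω' * (p ω' * f ω') / law p V (V ω')) := by
    intro ω
    split_ifs with h
    · rcases (hp ω).eq_or_lt with h3 | h3
      · rw [← h3]
        ring
      · rw [hg ω ω' h3 h0 h, h]
        ring
    · ring
  rw [Finset.sum_congr rfl fun ω _ => h2 ω, ← Finset.sum_mul]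
  have h3 : ∑ ω, (if V ω = V ω' then p ω else 0) = law p V (V ω') := rfl
  rw [h3]
  have h4 := (law_pos hp V h0).ne'
  field_simp

theorem ce_const {p : Ω → ℝ} (V : Ω → β) (f : Ω → ℝ) (ω ω' : Ω) (h : V ω = V ω') :
    ce p V f ω = ce p V f ω' := by
  rw [ce, ce, h]

theorem ce_mono {p : Ω → ℝ} (hp : ∀ ω, 0 ≤ p ω) {V : Ω → β} {W : Ω → γ} (h : Det p V W)
    (f : Ω → ℝ) : ∑ ω, p ω * (ce p W f ω) ^ 2 ≤ ∑ ω, p ω * (ce p V f ω) ^ 2 := by
  have h1 := ce_mul hp W f (ce p W f) fun ω ω' _ _ hW => ce_const W f ω ω' hW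
  have h2 := ce_mul hp V f (ce p W f) fun ω ω' a b hV => ce_const W f ω ω' (h ω ω' a b hV)
  have h3 : 0 ≤ ∑ ω, p ω * (ce p V f ω - ce p W f ω) ^ 2 :=
    Finset.sum_nonneg fun ω _ => mul_nonneg (hp ω) (sq_nonneg _)
  have h4 : ∑ ω, p ω * (ce p V f ω - ce p W f ω) ^ 2 =
      ∑ ω, p ω * (ce p V f ω) ^ 2 - 2 * ∑ ω, p ω * (ce p V f ω * ce p W f ω) +
        ∑ ω, p ω * (ce p W f ω * ce p W f ω) := by
    rw [Finset.mul_sum, ← Finset.sum_sub_distrib, ← Finset.sum_add_distrib]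
    exact Finset.sum_congr rfl fun ω _ => by ring
  have h5 : ∑ ω, p ω * (ce p W f ω) ^ 2 = ∑ ω, p ω * (ce p W f ω * ce p W f ω) :=
    Finset.sum_congr rfl fun ω _ => by ring
  linarith

theorem Ex_dbl {p : Ω → ℝ} (W : Ω → γ) (f g : Ω → ℝ) :
    Ex (dbl p W) (fun w => f w.1 * g w.2) = ∑ ω, p ω * (f ω * ce p W g ω) := by
  classical
  rw [Ex, Fintype.sum_prod_type]
  refine Finset.sum_congr rfl fun ω _ => ?_
  rw [ce, Finset.sum_div, Finset.mul_sum, Finset.mul_sum]
  refine Finset.sum_congr rfl fun ω' _ => ?_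
  rw [dbl, glue]
  simp only
  split_ifs <;> ring

/-- the indicator function of a value -/
def ind (σ : Ω → ℤ) (a : ℤ) (ω : Ω) : ℝ := if σ ω = a then 1 else 0

/-- the collision probability of a value -/
noncomputable def col (p : Ω → ℝ) (W : Ω → γ) (σ : Ω → ℤ) (a : ℤ) : ℝ :=
  ∑ ω, p ω * (ce p W (ind σ a) ω) ^ 2

theorem col_nonneg {p : Ω → ℝ} (hp : ∀ ω, 0 ≤ p ω) (W : Ω → γ) (σ : Ω → ℤ) (a : ℤ) :
    0 ≤ col p W σ a := Finset.sum_nonneg fun ω _ => mul_nonneg (hp ω) (sq_nonneg _)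

theorem col_zero {p : Ω → ℝ} (W : Ω → γ) (σ : Ω → ℤ) {a : ℤ} (ha : a ∉ univ.image σ) :
    col p W σ a = 0 := by
  classical
  have h0 : ∀ ω, ind σ a ω = 0 := fun ω =>
    if_neg fun h => ha (mem_image.2 ⟨ω, mem_univ _, h⟩)
  refine Finset.sum_eq_zero fun ω _ => ?_
  rw [ce]
  simp [h0]

theorem near_eq {p : Ω → ℝ} (hp : ∀ ω, 0 ≤ p ω) (W : Ω → γ) (σ : Ω → ℤ) (j : ℤ) :
    Ex (dbl p W) (fun w => if σ w.2 = σ w.1 + j then 1 else 0) =
      ∑ a ∈ univ.image σ, ∑ ω, p ω * (ce p W (ind σ a) ω * ce p W (ind σ (a + j)) ω) := by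
  classical
  have h1 : ∀ w : Ω × Ω, (if σ w.2 = σ w.1 + j then (1 : ℝ) else 0) =
      ∑ a ∈ univ.image σ, ind σ a w.1 * ind σ (a + j) w.2 := by
    intro w
    rw [Finset.sum_eq_single (σ w.1)]
    · simp [ind]
    · intro a _ ha
      rw [ind, if_neg (Ne.symm ha), zero_mul]
    · intro h
      exact absurd (mem_image.2 ⟨w.1, mem_univ _, rfl⟩) h
  have h2 : Ex (dbl p W) (fun w => if σ w.2 = σ w.1 + j then 1 else 0) =
      ∑ a ∈ univ.image σ, Ex (dbl p W) (fun w => ind σ a w.1 * ind σ (a + j) w.2) := by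
    rw [Ex]
    simp_rw [h1, Finset.mul_sum]
    rw [Finset.sum_comm]
    rfl
  rw [h2]
  refine Finset.sum_congr rfl fun a _ => ?_
  rw [Ex_dbl]
  have h3 := ce_mul hp W (ind σ a) (ce p W (ind σ (a + j)))
    fun ω ω' _ _ hW => ce_const W _ ω ω' hW
  rw [h3]

theorem near_zero {p : Ω → ℝ} (hp : ∀ ω, 0 ≤ p ω) (W : Ω → γ) (σ : Ω → ℤ) :
    Ex (dbl p W) (fun w => if σ w.1 = σ w.2 then 1 else 0) =
      ∑ a ∈ univ.image σ, col p W σ a := by
  have h := near_eq hp W σ 0
  simp only [add_zero] at h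
  have h1 : Ex (dbl p W) (fun w => if σ w.1 = σ w.2 then 1 else 0) =
      Ex (dbl p W) (fun w => if σ w.2 = σ w.1 then 1 else 0) := by
    congr 1
    funext w
    simp only [eq_comm]
  rw [h1, h]
  refine Finset.sum_congr rfl fun a _ => Finset.sum_congr rfl fun ω _ => ?_
  ring

theorem near_le {p : Ω → ℝ} (hp : ∀ ω, 0 ≤ p ω) (W : Ω → γ) (σ : Ω → ℤ) (j : ℤ) :
    Ex (dbl p W) (fun w => if σ w.2 = σ w.1 + j then 1 else 0) ≤
      ∑ a ∈ univ.image σ, col p W σ a := by
  classical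
  rw [near_eq hp]
  have h1 : ∀ a ∈ univ.image σ,
      ∑ ω, p ω * (ce p W (ind σ a) ω * ce p W (ind σ (a + j)) ω) ≤
        1 / 2 * col p W σ a + 1 / 2 * col p W σ (a + j) := by
    intro a _
    rw [col, col, Finset.mul_sum, Finset.mul_sum, ← Finset.sum_add_distrib]
    refine Finset.sum_le_sum fun ω _ => ?_
    have h2 := hp ω
    nlinarith [mul_nonneg h2 (sq_nonneg (ce p W (ind σ a) ω - ce p W (ind σ (a + j)) ω))]
  refine (Finset.sum_le_sum h1).trans ?_
  rw [Finset.sum_add_distrib, ← Finset.mul_sum, ← Finset.mul_sum]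
  have h3 : ∑ a ∈ univ.image σ, col p W σ (a + j) ≤ ∑ a ∈ univ.image σ, col p W σ a := by
    have h4 : ∑ a ∈ univ.image σ, col p W σ (a + j) =
        ∑ b ∈ (univ.image σ).image (fun a => a + j), col p W σ b := by
      rw [Finset.sum_image fun a _ b _ h => add_right_cancel h]
    rw [h4]
    calc ∑ b ∈ (univ.image σ).image (fun a => a + j), col p W σ b
        = ∑ b ∈ ((univ.image σ).image (fun a => a + j)).filter (fun b => b ∈ univ.image σ),
            col p W σ b := by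
          rw [Finset.sum_filter]
          refine Finset.sum_congr rfl fun b _ => ?_
          split_ifs with h
          · rfl
          · exact col_zero W σ h
      _ ≤ _ := by
          refine Finset.sum_le_sum_of_subset_of_nonneg ?_ fun b _ _ => col_nonneg hp W σ b
          intro b hb
          exact (mem_filter.1 hb).2
  linarith

/-- neighbouring cells given `W` against equal cells given the finer `V` -/
theorem near_main {p : Ω → ℝ} (hp : ∀ ω, 0 ≤ p ω) {V : Ω → β} {W : Ω → γ} (h : Det p V W)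
    (σ : Ω → ℤ) :
    Ex (dbl p W) (fun w => if |σ w.1 - σ w.2| ≤ 1 then 1 else 0) ≤
      3 * Ex (dbl p V) (fun w => if σ w.1 = σ w.2 then 1 else 0) := by
  have h1 : ∀ w : Ω × Ω, (if |σ w.1 - σ w.2| ≤ 1 then (1 : ℝ) else 0) ≤
      ((if σ w.2 = σ w.1 + 0 then 1 else 0) + (if σ w.2 = σ w.1 + 1 then 1 else 0)) +
        (if σ w.2 = σ w.1 + -1 then 1 else 0) := by
    intro w
    split_ifs with a b c d <;> norm_num
    rw [abs_le] at a
    omega
  have h2 := Ex_mono (dbl_nonneg hp (b := W)) fun w _ => h1 w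
  rw [Ex_add, Ex_add] at h2
  have a0 := near_le hp W σ 0
  have a1 := near_le hp W σ 1
  have a2 := near_le hp W σ (-1)
  have h3 : ∑ a ∈ univ.image σ, col p W σ a ≤ ∑ a ∈ univ.image σ, col p V σ a :=
    Finset.sum_le_sum fun a _ => ce_mono hp h (ind σ a)
  rw [near_zero hp V σ]
  linarith

end COA36

open COA36

theorem coa : COAStmt := by
  refine ⟨3, by norm_num, ?_⟩
  intro J Ω _ β γ p W' W τ hp h1 hτ hdet
  have hl2 : 0 < Real.log 2 := Real.log_pos (by norm_num)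
  have hl3 : Real.log 2 ≤ 1 := by
    have := Real.log_two_lt_d9
    linarith
  have hup : Gf (2 ^ J) p W τ ≤ Real.log 2 * (∑ i ∈ range J, Ex (dbl p W)
      (fun w => if |τ w.1 / 2 ^ i - τ w.2 / 2 ^ i| ≤ 1 then 1 else 0)) + Real.log 2 := by
    have hd : ∑ w, dbl p W w = 1 := by
      rw [dbl, sum_glue hp fun _ => rfl, h1]
    have h2 : Gf (2 ^ J) p W τ ≤ Ex (dbl p W) (fun w =>
        Real.log 2 * (∑ i ∈ range J, if |τ w.1 / 2 ^ i - τ w.2 / 2 ^ i| ≤ 1 then (1 : ℝ) else 0) +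
          Real.log 2) := by
      refine Ex_mono (dbl_nonneg hp) fun w hw => ?_
      obtain ⟨b1, b2, -⟩ := (glue_pos_iff hp hp w).1 hw
      exact (ell_bounds (hτ _ b1) (hτ _ b2)).1
    rw [Ex_add, Ex_smul, Ex_const hd] at h2
    refine h2.trans (le_of_eq ?_)
    congr 2
    rw [Ex]
    simp_rw [Finset.mul_sum]
    rw [Finset.sum_comm]
    rfl
  have hlo : Real.log 2 * (∑ i ∈ range J, Ex (dbl p W')
      (fun w => if τ w.1 / 2 ^ i = τ w.2 / 2 ^ i then 1 else 0)) ≤ Gf (2 ^ J) p W' τ := by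
    have h2 : Ex (dbl p W') (fun w =>
        Real.log 2 * (∑ i ∈ range J, if τ w.1 / 2 ^ i = τ w.2 / 2 ^ i then (1 : ℝ) else 0)) ≤
          Gf (2 ^ J) p W' τ := by
      refine Ex_mono (dbl_nonneg hp) fun w hw => ?_
      obtain ⟨b1, b2, -⟩ := (glue_pos_iff hp hp w).1 hw
      exact (ell_bounds (hτ _ b1) (hτ _ b2)).2
    rw [Ex_smul] at h2
    refine le_trans (le_of_eq ?_) h2
    congr 1
    rw [Ex]
    simp_rw [Finset.mul_sum]
    rw [Finset.sum_comm]
    rfl
  have hmid : (∑ i ∈ range J, Ex (dbl p W)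
      (fun w => if |τ w.1 / 2 ^ i - τ w.2 / 2 ^ i| ≤ 1 then 1 else 0)) ≤
      3 * ∑ i ∈ range J, Ex (dbl p W')
        (fun w => if τ w.1 / 2 ^ i = τ w.2 / 2 ^ i then 1 else 0) := by
    rw [Finset.mul_sum]
    exact Finset.sum_le_sum fun i _ => near_main hp hdet fun ω => τ ω / 2 ^ i
  nlinarith

end Pool.L5
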